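import Pool.Agent.KK.StmtsD

/-! Squad KK, row CVR: the classes cover all tuples and all edges of present types; sizes. -/

set_option autoImplicit false

open scoped BigOperators

namespace Pool.Agent.KK.H31

open Pool.Agent.KK

theorem image_perm {V : Type} [DecidableEq V] {N : ℕ} (g : Fin N → V) (σ : Equiv.Perm (Fin N)) :
    Finset.univ.image (fun i => g (σ i)) = Finset.univ.image g := by
  ext v
  rw [Finset.mem_image, Finset.mem_image]
  constructor
  · rintro ⟨i, -, h⟩
    exact ⟨σ i, Finset.mem_univ _, h⟩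
  · rintro ⟨i, -, h⟩
    exact ⟨σ.symm i, Finset.mem_univ _, by rw [Equiv.apply_symm_apply]; exact h⟩

theorem xc_le {V : Type} [DecidableEq V] (X : Finset V) {N : ℕ} (g : Fin N → V) : xc X g ≤ N := by
  unfold xc
  refine (Finset.card_le_univ _).trans (by rw [Fintype.card_fin])

/-- the rearrangement with the entries in `X` first -/
theorem sorted {V : Type} [DecidableEq V] (X : Finset V) {N : ℕ} (g : Fin N → V) :
    ∃ σ : Equiv.Perm (Fin N), ∀ i : Fin N, g (σ i) ∈ X ↔ (i : ℕ) < xc X g := by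
  classical
  have h1 : Fintype.card {i : Fin N // (i : ℕ) < xc X g} = Fintype.card {i : Fin N // g i ∈ X} := by
    rw [Fintype.card_subtype, Fintype.card_subtype]
    have h2 : (Finset.univ.filter fun i : Fin N => g i ∈ X).card = xc X g := rfl
    rw [h2]
    have h3 := xc_le X g
    rw [← Finset.card_map Fin.valEmbedding]
    have h4 : (Finset.univ.filter fun i : Fin N => (i : ℕ) < xc X g).map Fin.valEmbedding =
        Finset.range (xc X g) := by
      ext j
      rw [Finset.mem_map, Finset.mem_range]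
      constructor
      · rintro ⟨i, hi, rfl⟩
        exact (Finset.mem_filter.1 hi).2
      · intro hj
        exact ⟨⟨j, by omega⟩, Finset.mem_filter.2 ⟨Finset.mem_univ _, hj⟩, rfl⟩
    rw [h4, Finset.card_range]
  have e := Fintype.equivOfCardEq h1
  refine ⟨e.extendSubtype, fun i => ?_⟩
  constructor
  · intro h
    by_contra hi
    exact e.extendSubtype_not_mem i hi h
  · intro h
    exact e.extendSubtype_mem i h

theorem val0 {d i : ℕ} (hi : i < d + 2) :
    ((0 : ZMod (d + 2)) + ((i : ℕ) : ZMod (d + 2))).val = i := by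
  rw [zero_add, ZMod.val_natCast_of_lt hi]

theorem val1 {d i : ℕ} (hi : i + 1 < d + 2) :
    ((1 : ZMod (d + 2)) + ((i : ℕ) : ZMod (d + 2))).val = i + 1 := by
  have h : (1 : ZMod (d + 2)) + ((i : ℕ) : ZMod (d + 2)) = ((i + 1 : ℕ) : ZMod (d + 2)) := by
    push_cast
    ring
  rw [h, ZMod.val_natCast_of_lt hi]

theorem xc_sum {V : Type} [DecidableEq V] (X : Finset V) {N : ℕ} (g : Fin N → V) :
    xc X g = ∑ i, if g i ∈ X then 1 else 0 := by
  unfold xc
  rw [Finset.card_filter]

theorem xc_init {V : Type} [DecidableEq V] (X : Finset V) {N : ℕ} (g : Fin (N + 1) → V) :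
    xc X (Fin.init g) ≤ xc X g ∧ xc X g ≤ xc X (Fin.init g) + 1 := by
  rw [xc_sum, xc_sum, Fin.sum_univ_castSucc]
  have h1 : ∑ i : Fin N, (if g i.castSucc ∈ X then 1 else 0) =
      ∑ i : Fin N, (if (Fin.init g) i ∈ X then 1 else 0) := rfl
  rw [h1]
  split_ifs <;> omega

theorem xc_tail {V : Type} [DecidableEq V] (X : Finset V) {N : ℕ} (g : Fin (N + 1) → V) :
    xc X (Fin.tail g) ≤ xc X g ∧ xc X g ≤ xc X (Fin.tail g) + 1 := by
  rw [xc_sum, xc_sum, Fin.sum_univ_succ]
  have h1 : ∑ i : Fin N, (if g i.succ ∈ X then 1 else 0) =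
      ∑ i : Fin N, (if (Fin.tail g) i ∈ X then 1 else 0) := rfl
  rw [h1]
  split_ifs <;> omega

/-- the runs are increasing -/
theorem b_le {q : ℕ} {a b : ℕ → ℕ} (hle : ∀ i < q, a i ≤ b i)
    (hgap : ∀ i, i + 1 < q → a (i + 1) = b i + 2) : ∀ i < q, b i ≤ b (q - 1) := by
  have h : ∀ m i, i + m = q - 1 → i < q → b i ≤ b (q - 1) := by
    intro m
    induction m with
    | zero =>
      intro i hi _
      rw [← hi, Nat.add_zero]
    | succ m ih =>
      intro i hi hq
      have h1 : i + 1 < q := by omega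
      have h2 := ih (i + 1) (by omega) h1
      have h3 := hgap i h1
      have h4 := hle (i + 1) h1
      omega
  intro i hi
  exact h (q - 1 - i) i (by omega) hi

/-- the tuples with prescribed letters -/
theorem letters {V : Type} [Fintype V] [DecidableEq V] (X : Finset V) {N : ℕ} (w : Fin N → Prop)
    {x : ℝ} (hx : 0 ≤ x) (h1 : x ≤ X.card) (h2 : x ≤ Xᶜ.card) :
    x ^ N ≤ ({f : Fin N → V | ∀ i, f i ∈ X ↔ w i}.ncard : ℝ) := by
  classical
  have h3 : {f : Fin N → V | ∀ i, f i ∈ X ↔ w i} =
      ((Fintype.piFinset fun i => if w i then X else Xᶜ : Finset (Fin N → V)) : Set (Fin N → V)) := by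
    ext f
    rw [Finset.mem_coe, Fintype.mem_piFinset, Set.mem_setOf_eq]
    refine forall_congr' fun i => ?_
    by_cases h : w i
    · simp [h]
    · simp [h]
  rw [h3, Set.ncard_coe_finset, Fintype.card_piFinset]
  push_cast
  calc x ^ N = ∏ _i : Fin N, x := by rw [Finset.prod_const, Finset.card_univ, Fintype.card_fin]
    _ ≤ ∏ i : Fin N, ((if w i then X else Xᶜ).card : ℝ) := by
      refine Finset.prod_le_prod (fun _ _ => hx) fun i _ => ?_
      split_ifs
      · exact h1
      · exact h2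

/-- the number of letters of a canonical state -/
theorem can_xc {V : Type} [Fintype V] [DecidableEq V] {X : Finset V} {d s : ℕ} {z : Sta V d}
    (hz : z ∈ can X d s) : xc X z.1 ≤ s ∧ (s ≤ d + 2 → s ≤ xc X z.1 + 1) := by
  classical
  obtain ⟨φ, hφ⟩ : ∃ φ : Fin (d + 1) → ℕ,
      φ = fun i : Fin (d + 1) => (z.2 + ((i : ℕ) : ZMod (d + 2))).val := ⟨_, rfl⟩
  have hφi : Function.Injective φ := by
    intro i j hij
    rw [hφ] at hij
    have h1 := add_left_cancel (ZMod.val_injective _ hij)
    have h2 := congrArg ZMod.val h1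
    have hi := i.2
    have hj := j.2
    rw [ZMod.val_natCast_of_lt (by omega), ZMod.val_natCast_of_lt (by omega)] at h2
    exact Fin.ext h2
  have hφl : ∀ i, φ i < d + 2 := by
    intro i
    rw [hφ]
    exact ZMod.val_lt _
  have hx : xc X z.1 = (Finset.univ.filter fun i => φ i < s).card := by
    unfold xc
    congr 1
    ext i
    rw [Finset.mem_filter, Finset.mem_filter, hφ]
    exact and_congr Iff.rfl (hz i)
  have h1 : (Finset.univ.filter fun i => φ i < s).card ≤ s := by
    have h2 := Finset.card_le_card_of_injOn (s := Finset.univ.filter fun i => φ i < s)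
      (t := Finset.range s) φ (fun i hi => Finset.mem_coe.2 (Finset.mem_range.2
        (Finset.mem_filter.1 hi).2)) (hφi.injOn)
    rwa [Finset.card_range] at h2
  have h3 : (Finset.univ.filter fun i => ¬ φ i < s).card ≤ d + 2 - s := by
    have h2 := Finset.card_le_card_of_injOn (s := Finset.univ.filter fun i => ¬ φ i < s)
      (t := Finset.Ico s (d + 2)) φ (fun i hi => Finset.mem_coe.2 (Finset.mem_Ico.2
        ⟨not_lt.1 (Finset.mem_filter.1 hi).2, hφl i⟩)) (hφi.injOn)
    rwa [Nat.card_Ico] at h2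
  have h4 := Finset.card_filter_add_card_filter_not (s := (Finset.univ : Finset (Fin (d + 1))))
    (fun i => φ i < s)
  rw [Finset.card_univ, Fintype.card_fin] at h4
  rw [hx]
  refine ⟨h1, fun hs => ?_⟩
  omega

/-- CVR, part 1 -/
theorem cvr1 (d : ℕ) (V : Type) [Fintype V] [DecidableEq V] (H : Finset (Finset V)) (X : Finset V)
    (q : ℕ) (a b : ℕ → ℕ) (μ γ : ℝ) (hγ : 0 ≤ γ) (hγ6 : γ ≤ 1 / 6)
    (hS : Struc H d X q a b μ γ) :
    (∀ g : Fin (d + 1) → V, ∃ i < q, ∃ (f : Fin (d + 1) → V) (t : ZMod (d + 2)),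
      Finset.univ.image f = Finset.univ.image g ∧ (f, t) ∈ cls X d (a i) (b i)) ∧
    ({e : Fin (d + 2) → V | Finset.univ.image e ∈ H ∧ ¬ ∃ i < q, ∃ (f : Fin (d + 2) → V)
        (t : ZMod (d + 2)), Finset.univ.image f = Finset.univ.image e ∧
        (Fin.init f, t) ∈ cls X d (a i) (b i) ∧ (Fin.tail f, t + 1) ∈ cls X d (a i) (b i)}.ncard
        : ℝ) ≤ (d + 3) * γ * (Fintype.card V : ℝ) ^ (d + 2) ∧
    ∀ i < q, (1 / 3 : ℝ) ^ (d + 1) * (Fintype.card V : ℝ) ^ (d + 1) ≤
      (cls X d (a i) (b i)).ncard := by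
  classical
  have hb := b_le hS.le hS.gap
  have hq := hS.two_le
  refine ⟨?_, ?_, ?_⟩
  · intro g
    -- the interval
    have hm : xc X g ≤ d + 1 := xc_le X g
    have hex : ∃ i, xc X g ≤ b i ∧ i < q := ⟨q - 1, hm.trans hS.last1, by omega⟩
    obtain ⟨i, ⟨hi1, hi2⟩, hi3⟩ : ∃ i, (xc X g ≤ b i ∧ i < q) ∧
        ∀ j < i, ¬ (xc X g ≤ b j ∧ j < q) :=
      ⟨Nat.find hex, Nat.find_spec hex, fun j hj => Nat.find_min hex hj⟩
    have hi4 : a i ≤ xc X g + 1 := by
      rcases Nat.eq_zero_or_pos i with h0 | h0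
      · rw [h0]
        have := hS.first
        omega
      · obtain ⟨j, rfl⟩ : ∃ j, i = j + 1 := ⟨i - 1, by omega⟩
        have h1 := hi3 j (Nat.lt_succ_self j)
        have h2 := hS.gap j hi2
        have h3 : ¬ xc X g ≤ b j := fun h => h1 ⟨h, by omega⟩
        omega
    refine ⟨i, hi2, ?_⟩
    by_cases hab : a i = b i
    · obtain ⟨σ, hσ⟩ := sorted X g
      by_cases hc : xc X g = b i
      · refine ⟨fun x => g (σ x), 0, image_perm g σ, ?_⟩
        unfold cls
        rw [if_pos hab]
        intro x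
        show g (σ x) ∈ X ↔ ((0 : ZMod (d + 2)) + ((x : ℕ) : ZMod (d + 2))).val < a i
        have hx := x.2
        rw [hσ x, val0 (by omega), hab, hc]
      · have hc' : xc X g + 1 = b i := by omega
        refine ⟨fun x => g (σ x), 1, image_perm g σ, ?_⟩
        unfold cls
        rw [if_pos hab]
        intro x
        show g (σ x) ∈ X ↔ ((1 : ZMod (d + 2)) + ((x : ℕ) : ZMod (d + 2))).val < a i
        have hx := x.2
        rw [hσ x, val1 (by omega), hab, ← hc']
        omega
    · refine ⟨g, 0, rfl, ?_⟩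
      unfold cls
      rw [if_neg hab]
      exact ⟨hi4, hi1⟩
  · -- uncovered edges
    have hsub : {e : Fin (d + 2) → V | Finset.univ.image e ∈ H ∧ ¬ ∃ i < q,
        ∃ (f : Fin (d + 2) → V) (t : ZMod (d + 2)), Finset.univ.image f = Finset.univ.image e ∧
        (Fin.init f, t) ∈ cls X d (a i) (b i) ∧ (Fin.tail f, t + 1) ∈ cls X d (a i) (b i)} ⊆
        ⋃ j ∈ (Finset.range (d + 3)).filter (fun j => ∀ i < q, ¬ (a i ≤ j ∧ j ≤ b i)),
          {f : Fin (d + 2) → V | Finset.univ.image f ∈ H ∧ xc X f = j} := by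
      rintro e ⟨he, hun⟩
      refine Set.mem_biUnion (x := xc X e) (Finset.mem_coe.2 (Finset.mem_filter.2
        ⟨Finset.mem_range.2 (Nat.lt_succ_of_le (xc_le X e)), ?_⟩)) ⟨he, rfl⟩
      rintro i hi ⟨h1, h2⟩
      apply hun
      refine ⟨i, hi, ?_⟩
      by_cases hab : a i = b i
      · obtain ⟨σ, hσ⟩ := sorted X e
        have hc : xc X e = a i := by omega
        refine ⟨fun x => e (σ x), 0, image_perm e σ, ?_, ?_⟩
        · unfold cls
          rw [if_pos hab]
          intro x
          show e (σ x.castSucc) ∈ X ↔ ((0 : ZMod (d + 2)) + ((x : ℕ) : ZMod (d + 2))).val < a i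
          have hx := x.2
          rw [hσ x.castSucc, val0 (by omega), hc, Fin.val_castSucc]
        · unfold cls
          rw [if_pos hab]
          intro x
          show e (σ x.succ) ∈ X ↔
            ((0 + 1 : ZMod (d + 2)) + ((x : ℕ) : ZMod (d + 2))).val < a i
          have hx := x.2
          rw [zero_add, hσ x.succ, val1 (by omega), hc, Fin.val_succ]
      · have h3 := xc_init X e
        have h4 := xc_tail X e
        refine ⟨e, 0, rfl, ?_, ?_⟩
        · unfold cls
          rw [if_neg hab]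
          exact ⟨by show a i ≤ xc X (Fin.init e) + 1; omega,
            by show xc X (Fin.init e) ≤ b i; omega⟩
        · unfold cls
          rw [if_neg hab]
          exact ⟨by show a i ≤ xc X (Fin.tail e) + 1; omega,
            by show xc X (Fin.tail e) ≤ b i; omega⟩
    have h1 := (Set.ncard_le_ncard hsub (Set.toFinite _)).trans (Finset.set_ncard_biUnion_le _ _)
    have h2 : ((∑ j ∈ (Finset.range (d + 3)).filter (fun j => ∀ i < q, ¬ (a i ≤ j ∧ j ≤ b i)),
        {f : Fin (d + 2) → V | Finset.univ.image f ∈ H ∧ xc X f = j}.ncard : ℕ) : ℝ) ≤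
        ∑ j ∈ (Finset.range (d + 3)).filter (fun j => ∀ i < q, ¬ (a i ≤ j ∧ j ≤ b i)),
          γ * (Fintype.card V : ℝ) ^ (d + 2) := by
      push_cast
      refine Finset.sum_le_sum fun j hj => ?_
      rw [Finset.mem_filter, Finset.mem_range] at hj
      exact hS.miss j (by omega) hj.2
    have h3 : (((Finset.range (d + 3)).filter
        (fun j => ∀ i < q, ¬ (a i ≤ j ∧ j ≤ b i))).card : ℝ) ≤ d + 3 := by
      have h4 := Finset.card_filter_le (Finset.range (d + 3))
        (fun j => ∀ i < q, ¬ (a i ≤ j ∧ j ≤ b i))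
      rw [Finset.card_range] at h4
      exact_mod_cast h4
    calc _ ≤ ((∑ j ∈ (Finset.range (d + 3)).filter (fun j => ∀ i < q, ¬ (a i ≤ j ∧ j ≤ b i)),
        {f : Fin (d + 2) → V | Finset.univ.image f ∈ H ∧ xc X f = j}.ncard : ℕ) : ℝ) := by
          exact_mod_cast h1
      _ ≤ _ := h2
      _ = (((Finset.range (d + 3)).filter
        (fun j => ∀ i < q, ¬ (a i ≤ j ∧ j ≤ b i))).card : ℝ) *
          (γ * (Fintype.card V : ℝ) ^ (d + 2)) := by rw [Finset.sum_const, nsmul_eq_mul]
      _ ≤ (d + 3) * (γ * (Fintype.card V : ℝ) ^ (d + 2)) :=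
          mul_le_mul_of_nonneg_right h3 (by positivity)
      _ = _ := by ring
  · -- sizes
    intro i hi
    have hn : (0 : ℝ) ≤ Fintype.card V := by positivity
    have hbal := abs_le.1 hS.bal
    have hg : γ * (Fintype.card V : ℝ) ≤ 1 / 6 * Fintype.card V :=
      mul_le_mul_of_nonneg_right hγ6 hn
    have hX1 : (Fintype.card V : ℝ) / 3 ≤ X.card := by linarith [hbal.1]
    have hX2 : (Fintype.card V : ℝ) / 3 ≤ Xᶜ.card := by
      have h1 := Finset.card_add_card_compl X
      have h2 : (X.card : ℝ) + Xᶜ.card = Fintype.card V := by exact_mod_cast h1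
      linarith [hbal.2]
    have hle := hS.le i hi
    have hbi := (hb i hi).trans hS.last2
    -- the word
    have key : ∃ w : Fin (d + 1) → Prop, ∀ f : Fin (d + 1) → V, (∀ x, f x ∈ X ↔ w x) →
        ((f, 0) : Sta V d) ∈ cls X d (a i) (b i) := by
      by_cases hab : a i = b i
      · refine ⟨fun x => (x : ℕ) < a i, fun f hf => ?_⟩
        unfold cls
        rw [if_pos hab]
        intro x
        show f x ∈ X ↔ ((0 : ZMod (d + 2)) + ((x : ℕ) : ZMod (d + 2))).val < a i
        have hx := x.2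
        rw [hf x, val0 (by omega)]
      · refine ⟨fun x => (x : ℕ) < a i - 1, fun f hf => ?_⟩
        unfold cls
        rw [if_neg hab]
        have h1 : xc X f = a i - 1 := by
          unfold xc
          rw [← Finset.card_map Fin.valEmbedding]
          have h4 : (Finset.univ.filter fun x => f x ∈ X).map Fin.valEmbedding =
              Finset.range (a i - 1) := by
            ext j
            rw [Finset.mem_map, Finset.mem_range]
            constructor
            · rintro ⟨x, hx, rfl⟩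
              exact (hf x).1 (Finset.mem_filter.1 hx).2
            · intro hj
              exact ⟨⟨j, by omega⟩, Finset.mem_filter.2 ⟨Finset.mem_univ _,
                (hf _).2 hj⟩, rfl⟩
          rw [h4, Finset.card_range]
        exact ⟨by show a i ≤ xc X f + 1; omega, by show xc X f ≤ b i; omega⟩
    obtain ⟨w, hw⟩ := key
    have h1 := letters X w (by positivity) hX1 hX2
    have h2 : ({f : Fin (d + 1) → V | ∀ x, f x ∈ X ↔ w x}.ncard) ≤
        (cls X d (a i) (b i)).ncard := by
      haveI : NeZero (d + 2) := ⟨by omega⟩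
      refine Set.ncard_le_ncard_of_injOn (fun f => ((f, 0) : Sta V d)) (fun f hf => hw f hf) ?_
        (Set.toFinite _)
      intro f _ f' _ h
      exact (Prod.ext_iff.1 h).1
    have h3 : (({f : Fin (d + 1) → V | ∀ x, f x ∈ X ↔ w x}.ncard : ℕ) : ℝ) ≤
        ((cls X d (a i) (b i)).ncard : ℝ) := by exact_mod_cast h2
    refine le_trans ?_ (h1.trans h3)
    rw [← mul_pow]
    apply le_of_eq
    congr 1
    ring

/-- CVR, part 2 (with the hypothesis `s ≤ d + 2`) -/
theorem cvr2 (d : ℕ) (V : Type) [Fintype V] [DecidableEq V] (X : Finset V) (a b s : ℕ)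
    (h1 : a ≤ s) (h2 : s ≤ b) (h3 : s ≤ d + 2) : can X d s ⊆ cls X d a b := by
  intro z hz
  unfold cls
  by_cases hab : a = b
  · rw [if_pos hab]
    have : a = s := by omega
    rw [this]
    exact hz
  · rw [if_neg hab]
    have h4 := can_xc hz
    have h5 := h4.2 h3
    exact ⟨by omega, by omega⟩

/-- CVR, part 3 -/
theorem cvr3 (d : ℕ) (V : Type) [Fintype V] [DecidableEq V] (X : Finset V) (a b : ℕ)
    (h : a < b ∨ b = 0 ∨ a = d + 2) (hab : a ≤ b) (f : Fin (d + 1) → V) (t t' : ZMod (d + 2))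
    (hf : (f, t) ∈ cls X d a b) : (f, t') ∈ cls X d a b := by
  unfold cls at hf ⊢
  by_cases he : a = b
  · rw [if_pos he] at hf ⊢
    rcases h with h | h | h
    · omega
    · have ha : a = 0 := by omega
      rw [ha] at hf ⊢
      intro i
      have h1 := hf i
      simp only [Nat.not_lt_zero] at h1 ⊢
      exact h1
    · intro i
      have h1 := hf i
      have h2 : (t + ((i : ℕ) : ZMod (d + 2))).val < a := by
        rw [h]
        exact ZMod.val_lt _
      have h3 : (t' + ((i : ℕ) : ZMod (d + 2))).val < a := by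
        rw [h]
        exact ZMod.val_lt _
      exact ⟨fun _ => h3, fun _ => h1.2 h2⟩
  · rw [if_neg he] at hf ⊢
    exact hf

/-- CVR -/
theorem cvr : CvrStmt :=
  ⟨fun d V _ _ H X q a b μ γ _ hγ hγ6 hS => cvr1 d V H X q a b μ γ hγ hγ6 hS,
    fun d V _ _ X a b s h1 h2 h3 => cvr2 d V X a b s h1 h2 h3,
    fun d V _ _ X a b h hab f t t' hf => cvr3 d V X a b h hab f t t' hf⟩

end Pool.Agent.KK.H31
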