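import Pool.Agent.KK.StmtsB

/-! Squad KK, row B_G0D: almost all points are good. -/

set_option autoImplicit false

namespace Pool.Agent.KK.B.H31

open Function
open scoped Classical

variable {k : ℕ} {V : Type} [Fintype V]

theorem st_le {E : (Fin k → V) → Prop} {D : Fin k → (Fin k → V) → Prop} {β : ℝ} (hβ : 0 < β)
    (hβ1 : β ≤ 1) (hI : Indep D) (hC : Closed E (β ^ 3) D) (i l : Fin k) :
    dens (fun a => ¬ stG E D β a i l) ≤ β := by
  have hQ : dens (fun e => E e ∧ ¬ (D i e ↔ D l e)) ≤ β ^ 3 :=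
    (dens_mono fun e he => ⟨he.1, fun h => he.2 (h i l)⟩).trans hC
  have h1 := markov (fun (a : Fin k → V) (q : V) => (fun e => E e ∧ ¬ (D i e ↔ D l e))
    (update a i q)) β
  rw [dens_update i (fun e => E e ∧ ¬ (D i e ↔ D l e))] at h1
  have h2 : dens (fun a => ¬ stG E D β a i l) ≤ dens (fun a => β < dens ((fun (a : Fin k → V)
      (q : V) => (fun e => E e ∧ ¬ (D i e ↔ D l e)) (update a i q)) a)) := by
    refine dens_mono fun a ha => ?_
    unfold stG at ha
    rw [not_le] at ha
    refine ha.trans_le (le_of_eq (dens_congr fun q => ?_))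
    show (E (update a i q) ∧ ¬ (D i a ↔ D l (update a i q))) ↔
      (E (update a i q) ∧ ¬ (D i (update a i q) ↔ D l (update a i q)))
    rw [hI i a q]
  have h3 : dens (fun a => ¬ stG E D β a i l) * β ≤ β ^ 3 :=
    (mul_le_mul_of_nonneg_right h2 hβ.le).trans (h1.trans hQ)
  have h4 : β ^ 3 ≤ β * β := by nlinarith [mul_pos hβ hβ]
  exact le_of_mul_le_mul_right (h3.trans h4) hβ

theorem pl_le {E : (Fin k → V) → Prop} {D : Fin k → (Fin k → V) → Prop} {β : ℝ} (hβ : 0 < β)
    (hI : Indep D) (hC : Closed E (β ^ 3) D) {i l : Fin k} (hil : i ≠ l) :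
    dens (fun a => ¬ plG E D β a i l) ≤ β := by
  have hQ : dens (fun e => E e ∧ ¬ (D i e ↔ D l e)) ≤ β ^ 3 :=
    (dens_mono fun e he => ⟨he.1, fun h => he.2 (h i l)⟩).trans hC
  have h1 := markov (fun (a : Fin k → V) (x : V × V) => (fun e => E e ∧ ¬ (D i e ↔ D l e))
    (update (update a l x.1) i x.2)) (β ^ 2)
  rw [dens_update2 i l (fun e => E e ∧ ¬ (D i e ↔ D l e))] at h1
  have h2 : dens (fun a => ¬ plG E D β a i l) ≤ dens (fun a => β ^ 2 < dens ((fun
      (a : Fin k → V) (x : V × V) => (fun e => E e ∧ ¬ (D i e ↔ D l e))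
      (update (update a l x.1) i x.2)) a)) := by
    refine dens_mono fun a ha => ?_
    unfold plG at ha
    rw [not_le] at ha
    refine ha.trans_le (le_of_eq (dens_congr fun x => ?_))
    show (E (update (update a l x.1) i x.2) ∧ ¬ (D i (update a l x.1) ↔ D l (update a i x.2))) ↔
      (E (update (update a l x.1) i x.2) ∧ ¬ (D i (update (update a l x.1) i x.2) ↔
        D l (update (update a l x.1) i x.2)))
    have e1 := hI i (update a l x.1) x.2
    have e2 : D l (update (update a l x.1) i x.2) ↔ D l (update a i x.2) := by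
      rw [update_comm hil.symm]
      exact hI l (update a i x.2) x.1
    rw [e1, e2]
  have hb2 : 0 < β ^ 2 := by positivity
  have h3 : dens (fun a => ¬ plG E D β a i l) * β ^ 2 ≤ β * β ^ 2 :=
    (mul_le_mul_of_nonneg_right h2 hb2.le).trans ((h1.trans hQ).trans (le_of_eq (by ring)))
  exact le_of_mul_le_mul_right h3 hb2

theorem ln_half {P : (Fin k → V) → Prop} {β : ℝ} (hβ : 0 < β) (l : Fin k) :
    dens (fun a => dens (fun z => P (update a l z)) ≤ β ∧ P a) ≤ β := by
  rw [← dens_update l (fun a => dens (fun z => P (update a l z)) ≤ β ∧ P a)]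
  refine dens_prod_le (Q := fun (a : Fin k → V) (z : V) =>
    dens (fun z' => P (update (update a l z) l z')) ≤ β ∧ P (update a l z)) hβ.le fun a => ?_
  by_cases h : dens (fun z' => P (update a l z')) ≤ β
  · exact (dens_mono fun z hz => hz.2).trans h
  · refine (dens_mono (Q := fun _ => False) fun z hz => ?_).trans (by rw [dens_false]; exact hβ.le)
    apply h
    have h1 := hz.1
    simp only [update_idem] at h1
    exact h1

theorem ln_le {D : Fin k → (Fin k → V) → Prop} {β : ℝ} (hβ : 0 < β) (i l : Fin k) :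
    dens (fun a => ¬ lnG D β a i l) ≤ 2 * β := by
  have h1 := ln_half (P := fun a => ¬ D i a) hβ l
  have h2 := ln_half (P := fun a => D i a) hβ l
  refine (dens_mono (Q := fun a => (dens (fun z => ¬ D i (update a l z)) ≤ β ∧ ¬ D i a) ∨
    (dens (fun z => D i (update a l z)) ≤ β ∧ D i a)) fun a ha => ?_).trans
    ((dens_or_le _ _).trans (by linarith))
  unfold lnG at ha
  by_contra hcon
  push Not at hcon
  exact ha ⟨hcon.1, hcon.2⟩

/-- G0D -/
theorem g0d : G0dStmt := by
  intro k V _ _ E D β hβ hβ1 hI hC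
  obtain ⟨P, hP⟩ : ∃ P : (Equiv.Perm (Fin k) × Fin k × Fin k) → (Fin k → V) → Prop,
      P = fun x a => x.2.1 ≠ x.2.2 ∧ ¬ (stG E D β (a ∘ x.1) x.2.1 x.2.2 ∧
        plG E D β (a ∘ x.1) x.2.1 x.2.2 ∧ lnG D β (a ∘ x.1) x.2.1 x.2.2) := ⟨_, rfl⟩
  have h1 : dens (fun a => ¬ G0 E D β a) ≤ dens (fun a => ∃ x, P x a) := by
    refine dens_mono fun a ha => ?_
    unfold G0 at ha
    push Not at ha
    obtain ⟨σ, i, l, hil, h⟩ := ha
    refine ⟨(σ, i, l), ?_⟩
    rw [hP]
    exact ⟨hil, fun hh => h hh.1 hh.2.1 hh.2.2⟩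
  have h2 : ∀ x, dens (P x) ≤ 4 * β := by
    rintro ⟨σ, i, l⟩
    by_cases hil : i = l
    · refine (dens_mono (Q := fun _ => False) fun a ha => ?_).trans
        (by rw [dens_false]; positivity)
      rw [hP] at ha
      exact ha.1 hil
    · have e1 := st_le hβ hβ1 hI hC i l
      have e2 := pl_le hβ hI hC hil
      have e3 := ln_le (D := D) hβ i l
      rw [← dens_perm σ] at e1 e2 e3
      refine (dens_mono (Q := fun a => (¬ stG E D β (a ∘ σ) i l ∨ ¬ plG E D β (a ∘ σ) i l) ∨
        ¬ lnG D β (a ∘ σ) i l) fun a ha => ?_).trans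
        ((dens_or_le _ _).trans ?_)
      · rw [hP] at ha
        have h3 := ha.2
        by_contra hcon
        push Not at hcon
        exact h3 ⟨hcon.1.1, hcon.1.2, hcon.2⟩
      · have h4 := dens_or_le (fun a => ¬ stG E D β (a ∘ σ) i l)
          (fun a => ¬ plG E D β (a ∘ σ) i l)
        linarith
  refine h1.trans ((dens_exists_le P).trans ((Finset.sum_le_sum fun x _ => h2 x).trans ?_))
  rw [Finset.sum_const, Finset.card_univ, Fintype.card_prod, Fintype.card_prod,
    Fintype.card_perm, Fintype.card_fin, nsmul_eq_mul]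
  push_cast
  apply le_of_eq
  ring

end Pool.Agent.KK.B.H31
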