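import Pool.Agent.KK.StmtsC

/-! Squad KK, row SWC: swaps from common links. -/

set_option autoImplicit false

namespace Pool.Agent.KK.H31

open Pool.Agent.KK

theorem mem_drop_ofFn {V : Type} {m : ℕ} (a : Fin m → V) (t : ℕ) (w : V) :
    w ∈ (List.ofFn a).drop t ↔ ∃ j : Fin m, t ≤ j ∧ a j = w := by
  constructor
  · intro h
    obtain ⟨i, hi, h1⟩ := List.mem_iff_getElem.1 h
    rw [List.getElem_drop, List.getElem_ofFn] at h1
    rw [List.length_drop, List.length_ofFn] at hi
    exact ⟨⟨t + i, by omega⟩, by simp, h1⟩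
  · rintro ⟨j, hj, rfl⟩
    rw [List.mem_iff_getElem]
    refine ⟨j - t, ?_, ?_⟩
    · rw [List.length_drop, List.length_ofFn]
      have := j.2
      omega
    · rw [List.getElem_drop, List.getElem_ofFn]
      congr 1
      ext
      simp only
      omega

theorem mem_take_ofFn {V : Type} {m : ℕ} (a : Fin m → V) (t : ℕ) (w : V) :
    w ∈ (List.ofFn a).take t ↔ ∃ j : Fin m, (j : ℕ) < t ∧ a j = w := by
  constructor
  · intro h
    obtain ⟨i, hi, h1⟩ := List.mem_iff_getElem.1 h
    rw [List.getElem_take, List.getElem_ofFn] at h1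
    rw [List.length_take, List.length_ofFn] at hi
    exact ⟨⟨i, by omega⟩, by simp only; omega, h1⟩
  · rintro ⟨j, hj, rfl⟩
    rw [List.mem_iff_getElem]
    refine ⟨j, ?_, ?_⟩
    · rw [List.length_take, List.length_ofFn]
      have := j.2
      omega
    · rw [List.getElem_take, List.getElem_ofFn]

/-- the number of functions which are not injective -/
theorem not_inj {J V : Type} [Fintype J] [DecidableEq J] [Fintype V] :
    ({x : J → V | ¬ Function.Injective x}.ncard) ≤
      (Fintype.card J) ^ 2 * (Fintype.card V) ^ (Fintype.card J - 1) := by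
  classical
  have h1 : {x : J → V | ¬ Function.Injective x} ⊆
      ⋃ p ∈ (Finset.univ : Finset (J × J)), {x : J → V | p.1 ≠ p.2 ∧ x p.1 = x p.2} := by
    intro x hx
    rw [Set.mem_setOf_eq, Function.Injective] at hx
    push Not at hx
    obtain ⟨a, b, h, hab⟩ := hx
    exact Set.mem_biUnion (Finset.mem_coe.2 (Finset.mem_univ (a, b))) ⟨hab, h⟩
  have h2 : ∀ p : J × J, ({x : J → V | p.1 ≠ p.2 ∧ x p.1 = x p.2}.ncard) ≤
      (Fintype.card V) ^ (Fintype.card J - 1) := by
    intro p
    by_cases hp : p.1 = p.2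
    · have : {x : J → V | p.1 ≠ p.2 ∧ x p.1 = x p.2} = ∅ := by
        ext x
        simp [hp]
      rw [this, Set.ncard_empty]
      exact Nat.zero_le _
    · have h3 : Set.InjOn (fun (x : J → V) (j : {j : J // j ≠ p.2}) => x j)
          {x : J → V | p.1 ≠ p.2 ∧ x p.1 = x p.2} := by
        intro x hx y hy hxy
        funext j
        by_cases hj : j = p.2
        · rw [hj, ← hx.2, ← hy.2]
          exact congrFun hxy ⟨p.1, hp⟩
        · exact congrFun hxy ⟨j, hj⟩
      have h4 := Set.ncard_le_ncard_of_injOn (t := (Set.univ : Set ({j : J // j ≠ p.2} → V)))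
        _ (fun _ _ => Set.mem_univ _) h3 Set.finite_univ
      refine h4.trans (le_of_eq ?_)
      rw [Set.ncard_univ, Nat.card_eq_fintype_card, Fintype.card_fun]
      congr 1
      rw [Fintype.card_subtype_compl]
      simp
  calc ({x : J → V | ¬ Function.Injective x}.ncard)
      ≤ (⋃ p ∈ (Finset.univ : Finset (J × J)),
          {x : J → V | p.1 ≠ p.2 ∧ x p.1 = x p.2}).ncard :=
        Set.ncard_le_ncard h1 (Set.toFinite _)
    _ ≤ ∑ p : J × J, ({x : J → V | p.1 ≠ p.2 ∧ x p.1 = x p.2}.ncard) :=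
        Finset.set_ncard_biUnion_le _ _
    _ ≤ ∑ _p : J × J, (Fintype.card V) ^ (Fintype.card J - 1) :=
        Finset.sum_le_sum fun p _ => h2 p
    _ = (Fintype.card J) ^ 2 * (Fintype.card V) ^ (Fintype.card J - 1) := by
        rw [Finset.sum_const, smul_eq_mul, Finset.card_univ, Fintype.card_prod, sq]

/-- the windows of `A u B` -/
theorem window {V : Type} {A B s : List V} {u : V} {m : ℕ} (hA : A.length = m)
    (hB : B.length = m) (hs : s <:+: A ++ [u] ++ B) (hl : s.length = m + 1) :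
    ∃ t, t ≤ m ∧ s = A.drop t ++ (u :: B.take t) := by
  obtain ⟨pre, suf, h⟩ := hs
  have hlen := congrArg List.length h
  simp only [List.length_append, List.length_cons, List.length_nil] at hlen
  have ht : pre.length ≤ m := by omega
  refine ⟨pre.length, ht, ?_⟩
  have h1 : s = ((A ++ [u] ++ B).drop pre.length).take (m + 1) := by
    rw [← h, List.append_assoc, List.drop_left, ← hl, List.take_left]
  have h2 : (A ++ [u] ++ B).drop pre.length = A.drop pre.length ++ (u :: B) := by
    rw [List.append_assoc, List.drop_append_of_le_length (by omega)]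
    rfl
  have h3 : m + 1 = (A.drop pre.length).length + (pre.length + 1) := by
    rw [List.length_drop]
    omega
  rw [h1, h2, h3, List.take_length_add_append, List.take_succ_cons]

theorem seg_of {V : Type} [Fintype V] [DecidableEq V] {H : Finset (Finset V)} {m : ℕ}
    {T : Set (List V)} {u : V} {x : Fin m → Fin 2 → V}
    (hx : ∀ g : Fin m → Fin 2, List.ofFn (fun i => x i (g i)) ∈ T ∧
      u ∉ Finset.univ.image (fun i => x i (g i)) ∧
      insert u (Finset.univ.image (fun i => x i (g i))) ∈ H)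
    (hinj : Function.Injective (fun p : Fin m × Fin 2 => x p.1 p.2)) :
    Seg H (m + 1) T T (List.ofFn (fun i => x i 0) ++ [u] ++ List.ofFn (fun i => x i 1)) := by
  have hlA : (List.ofFn (fun i => x i 0)).length = m := List.length_ofFn
  have hlB : (List.ofFn (fun i => x i 1)).length = m := List.length_ofFn
  have hlen : (List.ofFn (fun i => x i 0) ++ [u] ++ List.ofFn (fun i => x i 1)).length =
      m + 1 + m := by
    rw [List.length_append, List.length_append, hlA, hlB]
    rfl
  have hu : ∀ (i : Fin m) (e : Fin 2), x i e ≠ u := by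
    intro i e h
    apply (hx fun _ => e).2.1
    rw [Finset.mem_image]
    exact ⟨i, Finset.mem_univ _, h⟩
  refine ⟨⟨?_, ?_⟩, ?_, ?_, ?_⟩
  · rw [List.append_assoc, List.nodup_append]
    refine ⟨?_, ?_, ?_⟩
    · rw [List.nodup_ofFn]
      intro i j h
      exact congrArg Prod.fst (hinj (a₁ := (i, 0)) (a₂ := (j, 0)) h)
    · rw [List.singleton_append, List.nodup_cons]
      refine ⟨?_, ?_⟩
      · rw [List.mem_ofFn]
        rintro ⟨i, hi⟩
        exact hu i 1 hi
      · rw [List.nodup_ofFn]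
        intro i j h
        exact congrArg Prod.fst (hinj (a₁ := (i, 1)) (a₂ := (j, 1)) h)
    · intro a ha b hb hab
      rw [List.mem_ofFn] at ha
      obtain ⟨i, rfl⟩ := ha
      rw [List.singleton_append, List.mem_cons, List.mem_ofFn] at hb
      rcases hb with hb | ⟨j, hj⟩
      · exact hu i 0 (hab.trans hb)
      · have h1 := congrArg Prod.snd (hinj (a₁ := (i, 0)) (a₂ := (j, 1)) (hab.trans hj.symm))
        exact absurd h1 (by simp)
  · intro s hs hl
    obtain ⟨t, ht, rfl⟩ := window hlA hlB hs hl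
    have h1 := (hx fun i => if (i : ℕ) < t then 1 else 0).2.2
    have h2 : (List.drop t (List.ofFn fun i => x i 0) ++
        u :: List.take t (List.ofFn fun i => x i 1)).toFinset =
        insert u (Finset.univ.image fun i => x i (if (i : ℕ) < t then 1 else 0)) := by
      ext w
      rw [List.mem_toFinset, List.mem_append, List.mem_cons, mem_drop_ofFn, mem_take_ofFn,
        Finset.mem_insert, Finset.mem_image]
      constructor
      · rintro (⟨j, hj, h⟩ | h | ⟨j, hj, h⟩)
        · refine Or.inr ⟨j, Finset.mem_univ _, ?_⟩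
          rw [if_neg (by omega)]
          exact h
        · exact Or.inl h
        · refine Or.inr ⟨j, Finset.mem_univ _, ?_⟩
          rw [if_pos hj]
          exact h
      · rintro (h | ⟨j, -, h⟩)
        · exact Or.inr (Or.inl h)
        · by_cases hj : (j : ℕ) < t
          · rw [if_pos hj] at h
            exact Or.inr (Or.inr ⟨j, hj, h⟩)
          · rw [if_neg hj] at h
            exact Or.inl ⟨j, by omega, h⟩
    rw [h2]
    exact h1
  · rw [hlen]
    omega
  · have h1 : (m + 1 - 1) = (List.ofFn fun i => x i 0).length := by rw [hlA]; rfl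
    rw [List.append_assoc, h1, List.take_left]
    exact (hx fun _ => 0).1
  · have h1 : (List.ofFn (fun i => x i 0) ++ [u] ++ List.ofFn (fun i => x i 1)).length -
        (m + 1 - 1) = (List.ofFn (fun i => x i 0) ++ [u]).length := by
      rw [hlen, List.length_append, hlA]
      simp
    rw [h1, List.drop_left]
    exact (hx fun _ => 1).1

/-- SWC -/
theorem swc (ckq : CkqStmt) : SwcStmt := by
  intro k q ρ hk hq hρ
  obtain ⟨m, rfl⟩ : ∃ m, k = m + 1 := ⟨k - 1, by omega⟩
  obtain ⟨β, hβ⟩ : ∃ β : ℝ, β = (ρ / q) ^ (2 ^ m) := ⟨_, rfl⟩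
  have hq' : (0 : ℝ) < q := by exact_mod_cast hq
  have hβ0 : 0 < β := by
    rw [hβ]
    exact pow_pos (div_pos hρ hq') _
  obtain ⟨n₀, hn₀⟩ := exists_nat_ge (2 * ((m * 2 : ℕ) : ℝ) ^ 2 / β)
  refine ⟨β / 2, n₀ + 1, by positivity, ?_⟩
  intro V _ _ H T hn hU hT u v hF
  classical
  have hm : m + 1 - 1 = m := by omega
  rw [hm] at hF
  have hn1 : (1 : ℝ) ≤ Fintype.card V := by
    have : 1 ≤ Fintype.card V := by omega
    exact_mod_cast this
  have hn0 : (n₀ : ℝ) ≤ Fintype.card V := by
    have : n₀ ≤ Fintype.card V := by omega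
    exact_mod_cast this
  -- the popular class
  obtain ⟨P, hP⟩ : ∃ P : (Fin m → V) → Prop, P = fun f =>
      u ∉ Finset.univ.image f ∧ v ∉ Finset.univ.image f ∧
        insert u (Finset.univ.image f) ∈ H ∧ insert v (Finset.univ.image f) ∈ H := ⟨_, rfl⟩
  have hpig : ∃ i : Fin q, ρ / q * (Fintype.card V : ℝ) ^ m ≤
      ({f : Fin m → V | List.ofFn f ∈ T i ∧ P f}.ncard : ℝ) := by
    by_contra hcon
    push Not at hcon
    have h1 : {f : Fin m → V | (∃ i, List.ofFn f ∈ T i) ∧
          u ∉ Finset.univ.image f ∧ v ∉ Finset.univ.image f ∧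
          insert u (Finset.univ.image f) ∈ H ∧ insert v (Finset.univ.image f) ∈ H} ⊆
        ⋃ i ∈ (Finset.univ : Finset (Fin q)), {f : Fin m → V | List.ofFn f ∈ T i ∧ P f} := by
      rintro f ⟨⟨i, hi⟩, hf⟩
      refine Set.mem_biUnion (Finset.mem_coe.2 (Finset.mem_univ i)) ⟨hi, ?_⟩
      rw [hP]
      exact hf
    have h2 := (Set.ncard_le_ncard h1 (Set.toFinite _)).trans
      (Finset.set_ncard_biUnion_le _ _)
    have h3 : (({f : Fin m → V | (∃ i, List.ofFn f ∈ T i) ∧
          u ∉ Finset.univ.image f ∧ v ∉ Finset.univ.image f ∧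
          insert u (Finset.univ.image f) ∈ H ∧ insert v (Finset.univ.image f) ∈ H}.ncard : ℕ) : ℝ) ≤
        ∑ i : Fin q, ({f : Fin m → V | List.ofFn f ∈ T i ∧ P f}.ncard : ℝ) := by
      exact_mod_cast h2
    have h4 : ∑ i : Fin q, ({f : Fin m → V | List.ofFn f ∈ T i ∧ P f}.ncard : ℝ) <
        ∑ _i : Fin q, ρ / q * (Fintype.card V : ℝ) ^ m := by
      refine Finset.sum_lt_sum_of_nonempty ⟨⟨0, hq⟩, Finset.mem_univ _⟩ fun i _ => hcon i
    rw [Finset.sum_const, Finset.card_univ, Fintype.card_fin, nsmul_eq_mul] at h4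
    have h5 : (q : ℝ) * (ρ / q * (Fintype.card V : ℝ) ^ m) = ρ * (Fintype.card V : ℝ) ^ m := by
      field_simp
    rw [h5] at h4
    exact absurd hF (not_le.2 (lt_of_le_of_lt h3 h4))
  obtain ⟨i, hi⟩ := hpig
  have hX := ckq m 2 (ρ / q) (by norm_num) (div_pos hρ hq') V (by
    have : 1 ≤ Fintype.card V := by omega
    omega) _ hi
  rw [← hβ] at hX
  obtain ⟨X, hXe⟩ : ∃ X : Set (Fin m → Fin 2 → V), X = {x | ∀ g : Fin m → Fin 2,
    (fun i => x i (g i)) ∈ {f : Fin m → V | List.ofFn f ∈ T i ∧ P f}} := ⟨_, rfl⟩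
  rw [← hXe] at hX
  obtain ⟨N, hN⟩ : ∃ N : Set (Fin m → Fin 2 → V), N = {x |
    ¬ Function.Injective (fun p : Fin m × Fin 2 => x p.1 p.2)} := ⟨_, rfl⟩
  have hNc : N.ncard ≤ (m * 2) ^ 2 * (Fintype.card V) ^ (m * 2 - 1) := by
    have h1 := not_inj (J := Fin m × Fin 2) (V := V)
    rw [Fintype.card_prod, Fintype.card_fin, Fintype.card_fin] at h1
    refine le_trans ?_ h1
    refine Set.ncard_le_ncard_of_injOn (fun x (p : Fin m × Fin 2) => x p.1 p.2) ?_ ?_
      (Set.toFinite _)
    · intro x hx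
      rw [hN] at hx
      exact hx
    · intro x _ y _ hxy
      funext a b
      exact congrFun hxy (a, b)
  have hsub : (X \ N).ncard ≤ {p : (Fin m → V) × (Fin m → V) | ∃ i,
      Seg H (m + 1) (T i) (T i) (List.ofFn p.1 ++ [u] ++ List.ofFn p.2) ∧
      Seg H (m + 1) (T i) (T i) (List.ofFn p.1 ++ [v] ++ List.ofFn p.2)}.ncard := by
    refine Set.ncard_le_ncard_of_injOn (fun x => (fun i => x i 0, fun i => x i 1)) ?_ ?_
      (Set.toFinite _)
    · rintro x ⟨hx, hx'⟩
      rw [hXe] at hx
      rw [hN, Set.mem_setOf_eq, not_not] at hx'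
      refine ⟨i, ?_, ?_⟩
      · refine seg_of (x := x) (fun g => ?_) hx'
        have h1 := hx g
        rw [hP] at h1
        exact ⟨h1.1, h1.2.1, h1.2.2.2.1⟩
      · refine seg_of (x := x) (fun g => ?_) hx'
        have h1 := hx g
        rw [hP] at h1
        exact ⟨h1.1, h1.2.2.1, h1.2.2.2.2⟩
    · intro x _ y _ hxy
      have h1 := (Prod.ext_iff.1 hxy).1
      have h2 := (Prod.ext_iff.1 hxy).2
      funext a b
      fin_cases b
      · exact congrFun h1 a
      · exact congrFun h2 a
  have hdiff : X.ncard ≤ (X \ N).ncard + N.ncard := by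
    have h1 := Set.ncard_le_ncard (s := X) (t := (X \ N) ∪ N) (by
      intro x hx
      by_cases h : x ∈ N
      · exact Or.inr h
      · exact Or.inl ⟨hx, h⟩) (Set.toFinite _)
    exact h1.trans (Set.ncard_union_le _ _)
  have hNr : (N.ncard : ℝ) ≤ β / 2 * (Fintype.card V : ℝ) ^ (m * 2) := by
    rcases Nat.eq_zero_or_pos m with h0 | h0
    · have h1 : N.ncard = 0 := by
        have h2 : (m * 2) ^ 2 * (Fintype.card V) ^ (m * 2 - 1) = 0 := by
          rw [h0]
          simp
        omega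
      rw [h1]
      have h3 : (0 : ℝ) ≤ β / 2 * (Fintype.card V : ℝ) ^ (m * 2) := by positivity
      simpa using h3
    · have h1 : (N.ncard : ℝ) ≤ ((m * 2 : ℕ) : ℝ) ^ 2 * (Fintype.card V : ℝ) ^ (m * 2 - 1) := by
        exact_mod_cast hNc
      have h2 : (Fintype.card V : ℝ) ^ (m * 2) =
          (Fintype.card V : ℝ) ^ (m * 2 - 1) * Fintype.card V := by
        rw [← pow_succ]
        congr 1
        omega
      have h3 : ((m * 2 : ℕ) : ℝ) ^ 2 ≤ β / 2 * Fintype.card V := by
        have h4 := hn₀.trans hn0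
        rw [div_le_iff₀ hβ0] at h4
        linarith
      rw [h2]
      calc (N.ncard : ℝ) ≤ ((m * 2 : ℕ) : ℝ) ^ 2 * (Fintype.card V : ℝ) ^ (m * 2 - 1) := h1
        _ ≤ (β / 2 * Fintype.card V) * (Fintype.card V : ℝ) ^ (m * 2 - 1) :=
          mul_le_mul_of_nonneg_right h3 (by positivity)
        _ = _ := by ring
  unfold Swp
  rw [hm]
  have hfin : (X.ncard : ℝ) ≤ ((X \ N).ncard : ℝ) + (N.ncard : ℝ) := by exact_mod_cast hdiff
  have hsub' : ((X \ N).ncard : ℝ) ≤ ({p : (Fin m → V) × (Fin m → V) | ∃ i,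
      Seg H (m + 1) (T i) (T i) (List.ofFn p.1 ++ [u] ++ List.ofFn p.2) ∧
      Seg H (m + 1) (T i) (T i) (List.ofFn p.1 ++ [v] ++ List.ofFn p.2)}.ncard : ℝ) := by
    exact_mod_cast hsub
  refine le_trans ?_ hsub'
  rw [mul_comm 2 m] at hX ⊢
  linarith

end Pool.Agent.KK.H31
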